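import Pool.Agent.MWGN.StmtsB

/-!
# MWGN, row MPO: positions in the main case

The letters `L i` are in the factor `G`, the letter `a` in `F`, the letter `b` in `H`, and the
contents `C i` lie between the lights.
-/

namespace Pool.Agent.MWGN.H26

open Pool.Agent.Helper14_MV Pool.Agent.Helper2_MV
open Pool.Agent.MWK (pre Gw)
open Pool.Agent.MWGN

theorem mpo : MpoStmt := by
  intro ν m nc hnc p X Y F G H w hw hG hWC hx hy
  obtain ⟨A, hA⟩ : ∃ A, A = p ++ (X ++ (Y ++ F)) := ⟨_, rfl⟩
  have hwA : w = A ++ (X ++ (G ++ (Y ++ H))) := by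
    rw [hw, hA]; simp only [List.append_assoc]
  have cx : 0 < X.count ν.x := List.count_pos_iff.2 hx
  have cy : 0 < Y.count ν.y := List.count_pos_iff.2 hy
  -- simple letters do not occur in X, Y, G
  have simp1 : ∀ s, w.count s = 1 → s ∉ X ∧ s ∉ Y ∧ s ∉ G := by
    intro s hs
    have e : w.count s = p.count s + X.count s + Y.count s + F.count s + X.count s + G.count s
        + Y.count s + H.count s := by
      rw [hw]; simp only [List.count_append]; ring
    refine ⟨fun h => ?_, fun h => ?_, fun h => ?_⟩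
    · have := List.count_pos_iff.2 h; omega
    · have := List.count_pos_iff.2 h; omega
    · have := hG s h; omega
  -- the lights are not in A
  have hLA : ∀ i ≤ m + 1, ν.L i ∉ A := by
    intro i hi hmem
    have h1 := hWC.xl i hi
    have h2 : pre w (ν.L i) = pre A (ν.L i) := by
      rw [hwA]; exact MWK.pre_append_mem hmem _
    have h3 : nn w ν.x (ν.L i) ≤ A.count ν.x := by
      unfold nn; rw [h2]; exact MWK.count_pre_le A ν.x (ν.L i)
    have h4 : w.count ν.x = A.count ν.x + X.count ν.x + G.count ν.x + Y.count ν.x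
        + H.count ν.x := by
      rw [hwA]; simp only [List.count_append]; ring
    omega
  have hAmem : ∀ c, c ∉ A → c ∉ p ∧ c ∉ X ∧ c ∉ Y ∧ c ∉ F := by
    intro c hc
    rw [hA] at hc
    simp only [List.mem_append, not_or] at hc
    exact ⟨hc.1, hc.2.1, hc.2.2.1, hc.2.2.2⟩
  -- the prefix in front of a letter outside A
  have hpre : ∀ c, c ∉ A → pre w c = A ++ (X ++ pre (G ++ (Y ++ H)) c) := by
    intro c hc
    rw [hwA, MWK.pre_append hc, MWK.pre_append (hAmem c hc).2.1]
  have hLG : ∀ i ≤ m + 1, ν.L i ∈ G := by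
    intro i hi
    by_contra hn
    have h1 := hWC.yl i hi
    have h2 := hpre _ (hLA i hi)
    rw [MWK.pre_append hn, MWK.pre_append (hAmem _ (hLA i hi)).2.2.1] at h2
    have h3 : nn w ν.y (ν.L i) = A.count ν.y + (X.count ν.y + (G.count ν.y + (Y.count ν.y
        + (pre H (ν.L i)).count ν.y))) := by
      unfold nn; rw [h2]; simp only [List.count_append]
    have h4 : A.count ν.y = p.count ν.y + (X.count ν.y + (Y.count ν.y + F.count ν.y)) := by
      rw [hA]; simp only [List.count_append]
    omega
  have hLpre : ∀ i ≤ m + 1, pre w (ν.L i) = A ++ (X ++ pre G (ν.L i)) := by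
    intro i hi
    rw [hpre _ (hLA i hi), MWK.pre_append_mem (hLG i hi)]
  have ha := simp1 ν.a hWC.sa
  have hb := simp1 ν.b hWC.sb
  have haw : ν.a ∈ w := List.count_pos_iff.1 (by rw [hWC.sa]; exact Nat.one_pos)
  have hbw : ν.b ∈ w := List.count_pos_iff.1 (by rw [hWC.sb]; exact Nat.one_pos)
  have haF : ν.a ∈ F := by
    by_contra hn
    have hy1 := hWC.yl 0 (Nat.zero_le _)
    by_cases hap : ν.a ∈ p
    · have h1 : pre w ν.a = pre p ν.a := by rw [hw]; exact MWK.pre_append_mem hap _
      have h2 : nn w ν.y ν.a ≤ p.count ν.y := by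
        unfold nn; rw [h1]; exact MWK.count_pre_le p ν.y ν.a
      have h3 := hWC.ya
      have h4 : A.count ν.y = p.count ν.y + (X.count ν.y + (Y.count ν.y + F.count ν.y)) := by
        rw [hA]; simp only [List.count_append]
      have h5 : nn w ν.y (ν.L 0) = A.count ν.y + (X.count ν.y + (pre G (ν.L 0)).count ν.y) := by
        unfold nn; rw [hLpre 0 (Nat.zero_le _)]; simp only [List.count_append]
      omega
    · have haA : ν.a ∉ A := by
        rw [hA]
        simp only [List.mem_append, not_or]
        exact ⟨hap, ha.1, ha.2.1, hn⟩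
      have h1 := hpre _ haA
      have h2 : nn w ν.x ν.a = A.count ν.x + (X.count ν.x
          + (pre (G ++ (Y ++ H)) ν.a).count ν.x) := by
        unfold nn; rw [h1]; simp only [List.count_append]
      have h3 : A.count ν.x = p.count ν.x + (X.count ν.x + (Y.count ν.x + F.count ν.x)) := by
        rw [hA]; simp only [List.count_append]
      have h4 := hWC.xa
      omega
  have hbA : ν.b ∉ A := by
    intro hmem
    have h1 : pre w ν.b = pre A ν.b := by rw [hwA]; exact MWK.pre_append_mem hmem _
    have h2 := hWC.lb 0 (Nat.zero_le _)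
    have h3 : nn w (ν.L 0) ν.b ≤ A.count (ν.L 0) := by
      unfold nn; rw [h1]; exact MWK.count_pre_le A _ _
    have h4 : A.count (ν.L 0) = 0 := List.count_eq_zero.2 (hLA 0 (Nat.zero_le _))
    omega
  have hbH : ν.b ∈ H := by
    rw [hwA] at hbw
    simp only [List.mem_append] at hbw
    rcases hbw with h | h | h | h | h
    · exact absurd h hbA
    · exact absurd h hb.1
    · exact absurd h hb.2.2
    · exact absurd h hb.2.1
    · exact h
  have hbpre : pre w ν.b = A ++ (X ++ (G ++ (Y ++ pre H ν.b))) := by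
    rw [hpre _ hbA, MWK.pre_append hb.2.2, MWK.pre_append hb.2.1]
  refine ⟨haF, hbH, fun i hi => ?_, fun i hi => ?_⟩
  · obtain ⟨h1, h2, h3, h4⟩ := hAmem _ (hLA i hi)
    refine ⟨h1, h2, h3, h4, ?_, ?_⟩
    · have h5 := hWC.lb i hi
      have h6 : nn w (ν.L i) ν.b = A.count (ν.L i) + (X.count (ν.L i) + (G.count (ν.L i)
          + (Y.count (ν.L i) + (pre H ν.b).count (ν.L i)))) := by
        unfold nn; rw [hbpre]; simp only [List.count_append]
      have h7 : 0 < G.count (ν.L i) := List.count_pos_iff.2 (hLG i hi)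
      omega
    · rw [hLpre i hi, hA]; simp only [List.append_assoc]
  · have hj0 : ∀ j ≤ i, ν.C i ∉ A ∧ ν.C i ∉ X ∧ ν.C i ∉ pre G (ν.L j) := by
      intro j hj
      have h1 := hWC.cl0 i hi j hj
      have h2 : ν.C i ∉ pre w (ν.L j) := by
        intro h
        have := List.count_pos_iff.2 h
        unfold nn at h1
        omega
      rw [hLpre j (by omega)] at h2
      simp only [List.mem_append, not_or] at h2
      exact ⟨h2.1, h2.2.1, h2.2.2⟩
    obtain ⟨hCA, hCX, -⟩ := hj0 0 (Nat.zero_le _)
    have zA : A.count (ν.C i) = 0 := List.count_eq_zero.2 hCA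
    have zX : X.count (ν.C i) = 0 := List.count_eq_zero.2 hCX
    have h2c := hWC.c2 i hi
    have hj1 : ∀ j, i < j → j ≤ m + 1 → (pre G (ν.L j)).count (ν.C i) = w.count (ν.C i) := by
      intro j hij hj
      have h1 := hWC.cl1 i hi j hij hj
      have h2 : nn w (ν.C i) (ν.L j) = A.count (ν.C i) + (X.count (ν.C i)
          + (pre G (ν.L j)).count (ν.C i)) := by
        unfold nn; rw [hLpre j hj]; simp only [List.count_append]
      omega
    refine ⟨fun h => ?_, fun j hj => (hj0 j hj).2.2, fun j hij hj => ?_⟩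
    · have h1 := hj1 (i + 1) (Nat.lt_succ_self i) (by omega)
      have h2 := MWK.count_pre_le G (ν.C i) (ν.L (i + 1))
      have h3 : w.count (ν.C i) = A.count (ν.C i) + X.count (ν.C i) + G.count (ν.C i)
          + Y.count (ν.C i) + H.count (ν.C i) := by
        rw [hwA]; simp only [List.count_append]; ring
      have h4 := List.count_pos_iff.2 h
      omega
    · exact List.count_pos_iff.1 (by rw [hj1 j hij hj]; omega)

end Pool.Agent.MWGN.H26
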