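import Pool.Agent.MWGN.StmtsC

/-!
# MWGN, row RUN: the two runs of the crossing hull pentagon
-/

namespace Pool.Agent.MWGN.H26

open Pool.Agent.Helper14_MV Pool.Agent.Helper2_MV
open Pool.Agent.MWK (pre Gw)
open Pool.Agent.MWGN

theorem ix_le {r i : ℕ} (h : i ≤ r) : ix i ≤ r + 1 := by
  unfold ix; split_ifs <;> omega

theorem iy_le {r i : ℕ} (h : i ≤ r) : iy r i ≤ r + 2 := by
  unfold iy; split_ifs <;> omega

/-- the tails of a sub-run -/
theorem wt_sub {ν : Nm} {τ τ' : List ℕ} {m m' : ℕ} {w : List ℕ} (h : WT ν τ' m' w)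
    (f : ℕ → ℕ) (ν' : Nm) (hb : ν'.b = ν.b) (hS : ∀ i, ν'.S i = ν.S (f i))
    (hL : ∀ i, ν'.L i = ν.L (f i)) (hf : ∀ i ≤ m, f i ≤ m')
    (ho : ∀ i j, i ≤ m → j ≤ m → i ∈ pre τ j → f i ∈ pre τ' (f j)) : WT ν' τ m w where
  ss := fun i hi => by rw [hS]; exact h.ss _ (hf i hi)
  oS := fun i hi => by rw [hS, hb]; exact h.oS _ (hf i hi)
  os := fun i j hi hj hij => by
    rw [hS, hS]; exact h.os _ _ (hf i hi) (hf j hj) (ho i j hi hj hij)
  lt := fun i hi => by rw [hS, hL]; exact h.lt _ (hf i hi)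
  lT := fun i j hi hj hij => by
    rw [hS, hL]; exact h.lT _ _ (hf i hi) (hf j hj) (ho i j hi hj hij)

theorem nr_of {ν : Nm} {r : ℕ} (f : ℕ → ℕ) (hb : ν.b = 2) (hS : ∀ i, ν.S i = 3 + 3 * f i)
    (hf : ∀ i j, i ≤ r → j ≤ r → f i = f j → i = j) : Nr ν r := by
  unfold Nr
  rw [List.nodup_cons]
  constructor
  · intro h
    obtain ⟨i, -, hi⟩ := List.mem_map.1 h
    rw [hS, hb] at hi
    omega
  · rw [List.nodup_map_iff_inj_on (List.nodup_range)]
    intro i hi j hj hij
    rw [hS, hS] at hij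
    exact hf i j (Nat.lt_succ_iff.1 (List.mem_range.1 hi))
      (Nat.lt_succ_iff.1 (List.mem_range.1 hj)) (by omega)

theorem run (h1 : TwtStmt) : RunStmt := by
  intro τ r hr hτ w hw
  obtain ⟨-, ho⟩ := h1 τ r hr hτ
  refine ⟨?_, ?_, ?_, ?_, ?_, ?_⟩
  · exact
    { sb := hw.sb
      x2 := hw.x2
      xb := hw.xb
      x0 := hw.x0
      xr := by
        have e : ix r = r + 1 := by unfold ix; split_ifs <;> omega
        show nn w 0 (NF.L (ix r)) < w.count 0
        rw [e]; exact hw.xr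
      l2 := fun i hi => hw.l2 (ix i) ((ix_le hi).trans (Nat.le_succ _))
      lb := fun i hi => hw.lb (ix i) ((ix_le hi).trans (Nat.le_succ _))
      c2 := fun i hi => hw.c2 (i + 1) (Nat.succ_le_succ (Nat.zero_le _)) hi
      cb := fun i hi => hw.cb (i + 1) (Nat.succ_le_succ (Nat.zero_le _)) hi
      cl0 := fun i hi j hj => hw.cl0 (i + 1) (Nat.succ_le_succ (Nat.zero_le _)) hi (ix j)
        (ix_le hj)
      cl1 := fun i hi j hij hj => hw.cl1 (i + 1) (Nat.succ_le_succ (Nat.zero_le _)) hi (ix j)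
        (by unfold ix; split_ifs <;> omega) ((ix_le hj).trans (Nat.le_succ _)) }
  · exact wt_sub hw.wt ix Nx rfl (fun _ => rfl) (fun _ => rfl)
      (fun i hi => (ix_le hi).trans (Nat.le_succ _)) (fun i j hi hj hij => (ho i j hi hj hij).1)
  · exact
    { sb := hw.sb
      x2 := hw.y2
      xb := hw.yb
      x0 := by
        have e : iy r 0 = 1 := by unfold iy; split_ifs <;> omega
        show 1 ≤ nn w 1 (NF.L (iy r 0))
        rw [e]; exact hw.y1
      xr := by
        have e : iy r r = r + 2 := by unfold iy; split_ifs <;> omega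
        show nn w 1 (NF.L (iy r r)) < w.count 1
        rw [e]; exact hw.yr
      l2 := fun i hi => hw.l2 (iy r i) (iy_le hi)
      lb := fun i hi => hw.lb (iy r i) (iy_le hi)
      c2 := fun i hi => hw.c2 (i + 1) (Nat.succ_le_succ (Nat.zero_le _)) hi
      cb := fun i hi => hw.cb (i + 1) (Nat.succ_le_succ (Nat.zero_le _)) hi
      cl0 := fun i hi j hj => hw.cl0 (i + 1) (Nat.succ_le_succ (Nat.zero_le _)) hi (iy r j)
        (by unfold iy; split_ifs <;> omega)
      cl1 := fun i hi j hij hj => hw.cl1 (i + 1) (Nat.succ_le_succ (Nat.zero_le _)) hi (iy r j)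
        (by unfold iy; split_ifs <;> omega) (iy_le hj) }
  · exact wt_sub hw.wt (iy r) (Ny r) rfl (fun _ => rfl) (fun _ => rfl)
      (fun i hi => iy_le hi) (fun i j hi hj hij => (ho i j hi hj hij).2)
  · refine nr_of ix rfl (fun _ => rfl) (fun i j _ _ h => ?_)
    unfold ix at h; split_ifs at h <;> omega
  · refine nr_of (iy r) rfl (fun _ => rfl) (fun i j _ _ h => ?_)
    unfold iy at h; split_ifs at h <;> omega

end Pool.Agent.MWGN.H26
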